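import Mathlib
import Pool.Agent.helper85.PG.Spec2

/-!
# The supremum of a short character sum over the twists (module SUP)
-/

set_option autoImplicit false

namespace Pool.Agent.helper85.PG

/-- A point of the unit circle is within `2 π / N` of an `N`-th root of unity. -/
theorem sup_root (N : ℕ) (hN : 0 < N) (z : ℂ) (hz : ‖z‖ = 1) :
    ∃ j ∈ Finset.range N,
      ‖z - Complex.exp (Complex.I * (((2 * Real.pi * j / N : ℝ)) : ℂ))‖ ≤ 2 * Real.pi / N := by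
  have hN' : (0 : ℝ) < N := by exact_mod_cast hN
  have hpi := Real.pi_pos
  set θ : ℝ := Complex.arg z with hθ
  have hzθ : z = Complex.exp (Complex.I * (θ : ℂ)) := by
    have h := Complex.norm_mul_exp_arg_mul_I z
    rw [hz] at h
    rw [mul_comm Complex.I]
    simpa using h.symm
  set m : ℤ := ⌊θ * N / (2 * Real.pi)⌋ with hm
  have hm1 : (m : ℝ) ≤ θ * N / (2 * Real.pi) := Int.floor_le _
  have hm2 : θ * N / (2 * Real.pi) < m + 1 := Int.lt_floor_add_one _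
  have hNz : (N : ℤ) ≠ 0 := by exact_mod_cast hN.ne'
  have hr0 : 0 ≤ m % (N : ℤ) := Int.emod_nonneg _ hNz
  have hrN : m % (N : ℤ) < N := Int.emod_lt_of_pos _ (by exact_mod_cast hN)
  obtain ⟨j, hj⟩ := Int.eq_ofNat_of_zero_le hr0
  have hjN : j < N := by
    have : (j : ℤ) < N := by rw [← hj]; exact hrN
    exact_mod_cast this
  have hmj : m = (N : ℤ) * (m / (N : ℤ)) + j := by
    have h := Int.mul_ediv_add_emod m (N : ℤ)
    rw [hj] at h
    exact h.symm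
  set q : ℤ := m / (N : ℤ) with hq
  have hmjR : (m : ℝ) = (N : ℝ) * (q : ℝ) + (j : ℝ) := by exact_mod_cast hmj
  refine ⟨j, Finset.mem_range.2 hjN, ?_⟩
  have he : Complex.exp (Complex.I * (((2 * Real.pi * j / N : ℝ)) : ℂ)) =
      Complex.exp (Complex.I * (((2 * Real.pi * m / N : ℝ)) : ℂ)) := by
    rw [Complex.exp_eq_exp_iff_exists_int]
    refine ⟨-q, ?_⟩
    have h1 : (2 * Real.pi * m / N : ℝ) = 2 * Real.pi * j / N + 2 * Real.pi * q := by
      rw [hmjR]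
      field_simp
      ring
    rw [h1]
    push_cast
    ring
  rw [he, hzθ]
  have h2 : Complex.exp (Complex.I * (θ : ℂ)) =
      Complex.exp (Complex.I * (((2 * Real.pi * m / N : ℝ)) : ℂ)) *
        Complex.exp (Complex.I * (((θ - 2 * Real.pi * m / N : ℝ)) : ℂ)) := by
    rw [← Complex.exp_add]
    congr 1
    push_cast
    ring
  have h3 : Complex.exp (Complex.I * (θ : ℂ)) -
      Complex.exp (Complex.I * (((2 * Real.pi * m / N : ℝ)) : ℂ)) =
      Complex.exp (Complex.I * (((2 * Real.pi * m / N : ℝ)) : ℂ)) *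
        (Complex.exp (Complex.I * (((θ - 2 * Real.pi * m / N : ℝ)) : ℂ)) - 1) := by
    rw [mul_sub, mul_one, ← h2]
  rw [h3, norm_mul, Complex.norm_exp_I_mul_ofReal, one_mul]
  refine (Real.norm_exp_I_mul_ofReal_sub_one_le).trans ?_
  rw [Real.norm_eq_abs]
  have h4 : 0 ≤ θ - 2 * Real.pi * m / N := by
    have : 2 * Real.pi * m / N ≤ θ := by
      rw [div_le_iff₀ hN']
      rw [le_div_iff₀ (by positivity)] at hm1
      linarith
    linarith
  rw [abs_of_nonneg h4]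
  have h5 : θ ≤ 2 * Real.pi * m / N + 2 * Real.pi / N := by
    rw [← add_div, le_div_iff₀ hN']
    rw [div_lt_iff₀ (by positivity)] at hm2
    linarith
  linarith

/-- Changing the twist. -/
theorem sup_change {p : ℕ} [Fact p.Prime] (χ : MulChar (ZMod p) ℂ) (T : ℕ) (u : ZMod p)
    (z w : ℂ) (hz : ‖z‖ = 1) (hw : ‖w‖ = 1) :
    ‖∑ y ∈ Finset.Icc 1 T, χ (u + (y : ZMod p)) * z ^ y‖ ≤
      ‖∑ y ∈ Finset.Icc 1 T, χ (u + (y : ZMod p)) * w ^ y‖ + (T : ℝ) ^ 2 * ‖z - w‖ := by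
  have hpow : ∀ y : ℕ, ‖z ^ y - w ^ y‖ ≤ y * ‖z - w‖ := by
    intro y
    induction y with
    | zero => simp
    | succ n ih =>
      have h : z ^ (n + 1) - w ^ (n + 1) = z ^ n * (z - w) + (z ^ n - w ^ n) * w := by ring
      rw [h]
      refine (norm_add_le _ _).trans ?_
      rw [norm_mul, norm_mul, norm_pow, hz, hw, one_pow, one_mul, mul_one]
      push_cast
      linarith
  have hdiff : ‖∑ y ∈ Finset.Icc 1 T, χ (u + (y : ZMod p)) * (z ^ y - w ^ y)‖ ≤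
      (T : ℝ) ^ 2 * ‖z - w‖ := by
    refine (norm_sum_le _ _).trans ?_
    have h1 : ∀ y ∈ Finset.Icc 1 T, ‖χ (u + (y : ZMod p)) * (z ^ y - w ^ y)‖ ≤ T * ‖z - w‖ := by
      intro y hy
      rw [norm_mul]
      have hχ : ‖χ (u + (y : ZMod p))‖ ≤ 1 := DirichletCharacter.norm_le_one χ _
      have hyT : (y : ℝ) ≤ T := by exact_mod_cast (Finset.mem_Icc.1 hy).2
      calc ‖χ (u + (y : ZMod p))‖ * ‖z ^ y - w ^ y‖ ≤ 1 * (y * ‖z - w‖) :=
            mul_le_mul hχ (hpow y) (norm_nonneg _) zero_le_one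
        _ ≤ T * ‖z - w‖ := by
            rw [one_mul]
            exact mul_le_mul_of_nonneg_right hyT (norm_nonneg _)
    refine (Finset.sum_le_sum h1).trans ?_
    rw [Finset.sum_const, Nat.card_Icc, Nat.add_sub_cancel, nsmul_eq_mul]
    apply le_of_eq
    ring
  have hsum : ∑ y ∈ Finset.Icc 1 T, χ (u + (y : ZMod p)) * z ^ y =
      ∑ y ∈ Finset.Icc 1 T, χ (u + (y : ZMod p)) * w ^ y +
        ∑ y ∈ Finset.Icc 1 T, χ (u + (y : ZMod p)) * (z ^ y - w ^ y) := by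
    rw [← Finset.sum_add_distrib]
    exact Finset.sum_congr rfl fun y _ => by ring
  rw [hsum]
  exact (norm_add_le _ _).trans (by linarith)

/-- The moment for one twist, from TMO. -/
theorem sup_moment (hTMO : TMO_stmt) {p : ℕ} [Fact p.Prime] (χ : MulChar (ZMod p) ℂ)
    (hχ : χ ≠ 1) (k T : ℕ) (hT : T < p) (w : ℂ) (hw : ‖w‖ = 1) :
    ∑ u : ZMod p, ‖∑ y ∈ Finset.Icc 1 T, χ (u + (y : ZMod p)) * w ^ y‖ ^ (2 * k) ≤
      (k : ℝ) ^ (2 * k) * (T : ℝ) ^ k * (p : ℝ) +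
        (T : ℝ) ^ (2 * k) * (2 * k * Real.sqrt (p : ℝ)) := by
  have hinj : Set.InjOn (fun y : ℕ => (y : ZMod p)) (Finset.Icc 1 T : Finset ℕ) := by
    intro a ha b hb hab
    have ha' := (Finset.mem_Icc.1 (Finset.mem_coe.1 ha)).2
    have hb' := (Finset.mem_Icc.1 (Finset.mem_coe.1 hb)).2
    have h := congrArg ZMod.val hab
    simp only [] at h
    rwa [ZMod.val_natCast_of_lt (by omega), ZMod.val_natCast_of_lt (by omega)] at h
  have h := hTMO p χ hχ k ((Finset.Icc 1 T).image fun y : ℕ => (y : ZMod p))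
    (fun a => w ^ a.val) (fun a => by rw [norm_pow, hw, one_pow])
  have hcard : ((Finset.Icc 1 T).image fun y : ℕ => (y : ZMod p)).card = T := by
    rw [Finset.card_image_of_injOn hinj, Nat.card_Icc, Nat.add_sub_cancel]
  rw [hcard] at h
  refine le_trans (le_of_eq ?_) h
  refine Finset.sum_congr rfl fun u _ => ?_
  congr 2
  rw [Finset.sum_image hinj]
  refine Finset.sum_congr rfl fun y hy => ?_
  have hy' := (Finset.mem_Icc.1 hy).2
  rw [ZMod.val_natCast_of_lt (by omega), add_comm u, mul_comm]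

theorem SUP (hTMO : TMO_stmt) : SUP_stmt := by
  intro k hk
  refine ⟨4 ^ k * (4 ^ k + 4 * (k : ℝ) ^ (2 * k) + 8 * k), ?_, ?_⟩
  · have h1 : (1 : ℝ) ≤ 4 ^ k := one_le_pow₀ (by norm_num)
    have h2 : (0 : ℝ) ≤ 4 * (k : ℝ) ^ (2 * k) + 8 * k := by positivity
    calc (1 : ℝ) = 1 * 1 := by norm_num
      _ ≤ 4 ^ k * (4 ^ k + 4 * (k : ℝ) ^ (2 * k) + 8 * k) :=
        mul_le_mul h1 (by linarith) zero_le_one (by positivity)
  intro p hp χ hχ T hT hTp
  set N : ℕ := 4 * T ^ 2 with hN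
  have hNpos : 0 < N := by positivity
  set ζ : ℕ → ℂ := fun j => Complex.exp (Complex.I * (((2 * Real.pi * j / N : ℝ)) : ℂ)) with hζ
  have hζ1 : ∀ j, ‖ζ j‖ = 1 := fun j => Complex.norm_exp_I_mul_ofReal _
  set S : ZMod p → ℂ → ℝ := fun u z =>
    ‖∑ y ∈ Finset.Icc 1 T, χ (u + (y : ZMod p)) * z ^ y‖ with hS
  have hne : (Finset.range N).Nonempty := ⟨0, Finset.mem_range.2 hNpos⟩
  have hT1 : (1 : ℝ) ≤ T := by exact_mod_cast hT
  refine ⟨fun u => 2 + (Finset.range N).sup' hne fun j => S u (ζ j), ?_, ?_, ?_⟩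
  · intro u
    obtain ⟨j, _, hj⟩ := Finset.exists_mem_eq_sup' hne fun j => S u (ζ j)
    simp only []
    rw [hj]
    have : 0 ≤ S u (ζ j) := norm_nonneg _
    linarith
  · intro u z hz
    obtain ⟨j, hj, hjz⟩ := sup_root N hNpos z hz
    have h1 := sup_change χ T u z (ζ j) hz (hζ1 j)
    have h2 : S u (ζ j) ≤ (Finset.range N).sup' hne fun j => S u (ζ j) :=
      Finset.le_sup' (fun j => S u (ζ j)) hj
    have h3 : (T : ℝ) ^ 2 * ‖z - ζ j‖ ≤ 2 := by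
      have hTT : (0 : ℝ) < (T : ℝ) ^ 2 := by positivity
      calc (T : ℝ) ^ 2 * ‖z - ζ j‖ ≤ (T : ℝ) ^ 2 * (2 * Real.pi / N) :=
            mul_le_mul_of_nonneg_left hjz hTT.le
        _ = Real.pi / 2 := by
            rw [hN]
            push_cast
            field_simp
            ring
        _ ≤ 2 := by
            have := Real.pi_le_four
            linarith
    have h1' : ‖∑ y ∈ Finset.Icc 1 T, χ (u + (y : ZMod p)) * z ^ y‖ ≤
        S u (ζ j) + (T : ℝ) ^ 2 * ‖z - ζ j‖ := h1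
    simp only []
    linarith
  · have hpt : ∀ u : ZMod p, (2 + (Finset.range N).sup' hne fun j => S u (ζ j)) ^ (2 * k) ≤
        4 ^ k * (4 ^ k + ∑ j ∈ Finset.range N, S u (ζ j) ^ (2 * k)) := by
      intro u
      obtain ⟨j, hj, hjs⟩ := Finset.exists_mem_eq_sup' hne fun j => S u (ζ j)
      rw [hjs]
      have h0 : 0 ≤ S u (ζ j) := norm_nonneg _
      have h1 : S u (ζ j) ^ (2 * k) ≤ ∑ j ∈ Finset.range N, S u (ζ j) ^ (2 * k) :=
        Finset.single_le_sum (f := fun j => S u (ζ j) ^ (2 * k))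
          (fun i _ => pow_nonneg (norm_nonneg _) _) hj
      have h2 : (2 + S u (ζ j)) ^ (2 * k) ≤
          2 ^ (2 * k - 1) * (2 ^ (2 * k) + S u (ζ j) ^ (2 * k)) :=
        _root_.add_pow_le (by norm_num) h0 (2 * k)
      have h3 : (2 : ℝ) ^ (2 * k - 1) ≤ 4 ^ k := by
        have : (4 : ℝ) ^ k = 2 ^ (2 * k) := by rw [pow_mul]; norm_num
        rw [this]
        exact pow_le_pow_right₀ (by norm_num) (Nat.sub_le _ _)
      have h4 : (2 : ℝ) ^ (2 * k) = 4 ^ k := by rw [pow_mul]; norm_num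
      rw [h4] at h2
      have h5 : (0 : ℝ) ≤ 4 ^ k + S u (ζ j) ^ (2 * k) := by positivity
      calc (2 + S u (ζ j)) ^ (2 * k) ≤ 2 ^ (2 * k - 1) * (4 ^ k + S u (ζ j) ^ (2 * k)) := h2
        _ ≤ 4 ^ k * (4 ^ k + S u (ζ j) ^ (2 * k)) := mul_le_mul_of_nonneg_right h3 h5
        _ ≤ 4 ^ k * (4 ^ k + ∑ j ∈ Finset.range N, S u (ζ j) ^ (2 * k)) :=
            mul_le_mul_of_nonneg_left (by linarith) (by positivity)
    have hmom : ∀ j ∈ Finset.range N, ∑ u : ZMod p, S u (ζ j) ^ (2 * k) ≤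
        (k : ℝ) ^ (2 * k) * (T : ℝ) ^ k * (p : ℝ) +
          (T : ℝ) ^ (2 * k) * (2 * k * Real.sqrt (p : ℝ)) :=
      fun j _ => sup_moment hTMO χ hχ k T hTp (ζ j) (hζ1 j)
    have hsum : ∑ u : ZMod p, (2 + (Finset.range N).sup' hne fun j => S u (ζ j)) ^ (2 * k) ≤
        4 ^ k * (4 ^ k * p + N * ((k : ℝ) ^ (2 * k) * (T : ℝ) ^ k * (p : ℝ) +
          (T : ℝ) ^ (2 * k) * (2 * k * Real.sqrt (p : ℝ)))) := by
      refine (Finset.sum_le_sum fun u _ => hpt u).trans ?_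
      rw [← Finset.mul_sum, Finset.sum_add_distrib, Finset.sum_const, Finset.card_univ,
        ZMod.card, nsmul_eq_mul, Finset.sum_comm]
      refine mul_le_mul_of_nonneg_left ?_ (by positivity)
      have h1 := Finset.sum_le_sum hmom
      rw [Finset.sum_const, Finset.card_range, nsmul_eq_mul] at h1
      linarith
    refine hsum.trans ?_
    have hNR : (N : ℝ) = 4 * (T : ℝ) ^ 2 := by rw [hN]; push_cast; ring
    rw [hNR]
    have hTk : (1 : ℝ) ≤ (T : ℝ) ^ k := one_le_pow₀ hT1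
    have hT2 : (1 : ℝ) ≤ (T : ℝ) ^ 2 := one_le_pow₀ hT1
    have hsq : 0 ≤ Real.sqrt (p : ℝ) := Real.sqrt_nonneg _
    have hp0 : (0 : ℝ) ≤ (p : ℝ) := Nat.cast_nonneg _
    have hT2k : (0 : ℝ) ≤ (T : ℝ) ^ (2 * k) := by positivity
    have hX : (p : ℝ) ≤ (T : ℝ) ^ 2 * ((T : ℝ) ^ k * (p : ℝ) +
        (T : ℝ) ^ (2 * k) * Real.sqrt (p : ℝ)) := by
      have h1 : (p : ℝ) ≤ (T : ℝ) ^ k * (p : ℝ) := le_mul_of_one_le_left hp0 hTk
      have h2 : 0 ≤ (T : ℝ) ^ (2 * k) * Real.sqrt (p : ℝ) := mul_nonneg hT2k hsq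
      have h3 : 0 ≤ (T : ℝ) ^ k * (p : ℝ) + (T : ℝ) ^ (2 * k) * Real.sqrt (p : ℝ) := by positivity
      calc (p : ℝ) ≤ 1 * ((T : ℝ) ^ k * (p : ℝ) + (T : ℝ) ^ (2 * k) * Real.sqrt (p : ℝ)) := by
            linarith
        _ ≤ _ := mul_le_mul_of_nonneg_right hT2 h3
    have hY : 4 * (T : ℝ) ^ 2 * ((k : ℝ) ^ (2 * k) * (T : ℝ) ^ k * (p : ℝ) +
          (T : ℝ) ^ (2 * k) * (2 * k * Real.sqrt (p : ℝ))) ≤
        (4 * (k : ℝ) ^ (2 * k) + 8 * k) * ((T : ℝ) ^ 2 * ((T : ℝ) ^ k * (p : ℝ) +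
        (T : ℝ) ^ (2 * k) * Real.sqrt (p : ℝ))) := by
      have ha : 0 ≤ (T : ℝ) ^ 2 * ((T : ℝ) ^ k * (p : ℝ)) := by positivity
      have hb : 0 ≤ (T : ℝ) ^ 2 * ((T : ℝ) ^ (2 * k) * Real.sqrt (p : ℝ)) := by positivity
      have hk1 : 0 ≤ (k : ℝ) ^ (2 * k) := by positivity
      have hk2 : (0 : ℝ) ≤ k := Nat.cast_nonneg _
      have h1 := mul_nonneg hk1 hb
      have h2 := mul_nonneg hk2 ha
      nlinarith [h1, h2]
    calc 4 ^ k * (4 ^ k * (p : ℝ) + 4 * (T : ℝ) ^ 2 * ((k : ℝ) ^ (2 * k) * (T : ℝ) ^ k * (p : ℝ) +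
          (T : ℝ) ^ (2 * k) * (2 * k * Real.sqrt (p : ℝ))))
        ≤ 4 ^ k * (4 ^ k * ((T : ℝ) ^ 2 * ((T : ℝ) ^ k * (p : ℝ) +
            (T : ℝ) ^ (2 * k) * Real.sqrt (p : ℝ))) +
          (4 * (k : ℝ) ^ (2 * k) + 8 * k) * ((T : ℝ) ^ 2 * ((T : ℝ) ^ k * (p : ℝ) +
            (T : ℝ) ^ (2 * k) * Real.sqrt (p : ℝ)))) := by
          refine mul_le_mul_of_nonneg_left ?_ (by positivity)
          exact add_le_add (mul_le_mul_of_nonneg_left hX (by positivity)) hY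
      _ = 4 ^ k * (4 ^ k + 4 * (k : ℝ) ^ (2 * k) + 8 * k) * (T : ℝ) ^ 2 *
          ((T : ℝ) ^ k * (p : ℝ) + (T : ℝ) ^ (2 * k) * Real.sqrt (p : ℝ)) := by ring

end Pool.Agent.helper85.PG
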