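import Mathlib
import Pool.Agent.helper85.PG.Spec5
import Pool.Agent.helper85.PG.Basic

/-!
# One step of the intersection argument (module ZST)
-/

set_option autoImplicit false

namespace Pool.Agent.helper85.PG

open Module Pointwise

section
variable {p : ℕ} [Fact p.Prime]

theorem ZST_mem_dil (ρ : ZMod p) (S : Finset (ZMod p)) (y : ZMod p) :
    y ∈ dil ρ S ↔ ∃ x ∈ S, ρ * x = y := by
  unfold dil
  rw [Finset.mem_image]

/-- the sum of the squares of the intersection numbers -/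
theorem ZST_energy (S Z : Finset (ZMod p)) (F : Finset (ZMod p)) (hF : ∀ ρ ∈ F, ρ ≠ 0)
    (hS : (0 : ZMod p) ∈ S) (hZ : (0 : ZMod p) ∈ Z) :
    ∑ ρ ∈ F, (((Z ∩ dil ρ S).card : ℝ) - 1) ^ 2 ≤
      ∑ x ∈ S.erase 0, ∑ x' ∈ S.erase 0, (rr Z (x / x') : ℝ) := by
  have h1 : ∀ ρ ∈ F, ((Z ∩ dil ρ S).card : ℝ) - 1 =
      ∑ x ∈ S.erase 0, (if ρ * x ∈ Z then (1 : ℝ) else 0) := by
    intro ρ hρ
    have hρ0 := hF ρ hρ
    have he : Z ∩ dil ρ S = (S.filter fun x => ρ * x ∈ Z).image fun x => ρ * x := by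
      ext y
      rw [Finset.mem_inter, ZST_mem_dil, Finset.mem_image]
      constructor
      · rintro ⟨hy, x, hx, rfl⟩
        exact ⟨x, Finset.mem_filter.2 ⟨hx, hy⟩, rfl⟩
      · rintro ⟨x, hx, rfl⟩
        exact ⟨(Finset.mem_filter.1 hx).2, x, (Finset.mem_filter.1 hx).1, rfl⟩
    have hc : (Z ∩ dil ρ S).card = (S.filter fun x => ρ * x ∈ Z).card := by
      rw [he, Finset.card_image_of_injective _ (mul_right_injective₀ hρ0)]
    have h0 : (0 : ZMod p) ∈ S.filter fun x => ρ * x ∈ Z :=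
      Finset.mem_filter.2 ⟨hS, by rw [mul_zero]; exact hZ⟩
    have h2 : ((S.filter fun x => ρ * x ∈ Z).erase 0).card + 1 =
        (S.filter fun x => ρ * x ∈ Z).card := Finset.card_erase_add_one h0
    have h3 : (S.filter fun x => ρ * x ∈ Z).erase 0 = (S.erase 0).filter fun x => ρ * x ∈ Z := by
      ext y
      simp only [Finset.mem_erase, Finset.mem_filter]
      tauto
    rw [hc, ← h2, h3, Finset.sum_boole]
    push_cast
    ring
  have h4 : ∑ ρ ∈ F, (((Z ∩ dil ρ S).card : ℝ) - 1) ^ 2 =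
      ∑ x ∈ S.erase 0, ∑ x' ∈ S.erase 0,
        ∑ ρ ∈ F, (if ρ * x ∈ Z then (1 : ℝ) else 0) * (if ρ * x' ∈ Z then (1 : ℝ) else 0) := by
    rw [Finset.sum_congr rfl fun ρ hρ => by rw [h1 ρ hρ, sq, Finset.sum_mul_sum]]
    rw [Finset.sum_comm]
    refine Finset.sum_congr rfl fun x _ => ?_
    rw [Finset.sum_comm]
  rw [h4]
  refine Finset.sum_le_sum fun x hx => Finset.sum_le_sum fun x' hx' => ?_
  have hx0 : x ≠ 0 := (Finset.mem_erase.1 hx).1
  have hx'0 : x' ≠ 0 := (Finset.mem_erase.1 hx').1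
  have h5 : ∑ ρ ∈ F, (if ρ * x ∈ Z then (1 : ℝ) else 0) * (if ρ * x' ∈ Z then (1 : ℝ) else 0) =
      ((F.filter fun ρ => ρ * x ∈ Z ∧ ρ * x' ∈ Z).card : ℝ) := by
    rw [← Finset.sum_boole]
    refine Finset.sum_congr rfl fun ρ _ => ?_
    by_cases ha : ρ * x ∈ Z
    · by_cases hb : ρ * x' ∈ Z
      · simp [ha, hb]
      · simp [ha, hb]
    · simp [ha]
  rw [h5]
  have h6 : (F.filter fun ρ => ρ * x ∈ Z ∧ ρ * x' ∈ Z).card ≤ rr Z (x / x') := by
    unfold rr
    refine Finset.card_le_card_of_injOn (fun ρ => ρ * x') ?_ ?_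
    · intro ρ hρ
      have hρ' := Finset.mem_filter.1 (Finset.mem_coe.1 hρ)
      refine Finset.mem_coe.2 (Finset.mem_filter.2 ⟨hρ'.2.2, ?_⟩)
      have : x / x' * (ρ * x') = ρ * x := by
        field_simp
      rw [this]
      exact hρ'.2.1
    · intro a _ b _ hab
      exact mul_right_cancel₀ hx'0 hab
  exact_mod_cast h6

end

theorem ZST (hPKC : PKC_stmt) (hINT : INT_stmt) (hRSZ : RSZ_stmt) (hE2 : E2_stmt)
    (hDIL : DIL_stmt) : ZST_stmt := by
  intro d κ H hκ hH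
  obtain ⟨C₁, hC₁, hR₁⟩ := hRSZ d
  obtain ⟨C₂, hC₂, hR₂⟩ := hRSZ (d + d)
  obtain ⟨p₀, hE⟩ := hE2 d κ hκ
  obtain ⟨hD1, hD2, _⟩ := hDIL
  set K : ℝ := C₁ * C₁ * C₂ * 81 ^ d with hK
  have h81 : (1 : ℝ) ≤ 81 ^ d := one_le_pow₀ (by norm_num)
  have hK1 : 1 ≤ K := by
    rw [hK]
    have h1 : 1 ≤ C₁ * C₁ := one_le_mul_of_one_le_of_one_le hC₁ hC₁
    have h2 : 1 ≤ C₁ * C₁ * C₂ := one_le_mul_of_one_le_of_one_le h1 hC₂
    exact one_le_mul_of_one_le_of_one_le h2 h81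
  have hK0 : 0 < K := by linarith
  have hC : K ≤ 4 * K ^ 2 * (1 + H) := by nlinarith
  refine ⟨4 * K ^ 2 * (1 + H), p₀, by linarith, ?_⟩
  intro p hp hpp₀ P Z hP hZ hPZ hPZH L t hL ht
  set N : ℝ := ((P 1).card : ℝ) with hN
  set M : ℝ := ((Z 1).card : ℝ) with hM
  have hN0 : 0 < N := by rw [hN]; exact_mod_cast hP.card_pos (by norm_num)
  have hM0 : 0 < M := by rw [hM]; exact_mod_cast hZ.card_pos (by norm_num)
  have hp0 : (0 : ℝ) < p := by exact_mod_cast (Fact.out : p.Prime).pos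
  have ht0 : 0 < t := lt_of_lt_of_le (by positivity) ht
  have hL0 : 0 < L := by linarith
  set F : Finset (ZMod p) := (Finset.univ : Finset (ZMod p)).filter fun ρ => ρ ≠ 0 ∧
    L ≤ (rr (P 4) ρ : ℝ) ∧ t ≤ ((Z 1 ∩ (P 4 + dil ρ (P 4))).card : ℝ) with hF
  -- the lower bound for the intersection numbers
  have hlow : ∀ ρ ∈ F, t * L / (2 * K * N) ≤ ((Z 1 ∩ dil ρ (P 1)).card : ℝ) - 1 := by
    intro ρ hρ
    obtain ⟨hρ0, hρL, hρt⟩ := (Finset.mem_filter.1 hρ).2
    set m : ℝ := ((Z 1 ∩ dil ρ (P 1)).card : ℝ) with hm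
    have hP4 : IsSys p d fun R => P (4 * R) := hP.scale (by norm_num)
    have hP4ρ : IsSys p d fun R => dil ρ (P (4 * R)) := hD1 p d _ ρ hρ0 hP4
    have hPρ : IsSys p d fun R => dil ρ (P R) := hD1 p d _ ρ hρ0 hP
    obtain ⟨_, hS⟩ := hINT p d d _ _ hP4 hP4ρ
    have hZ' : IsSys p (d + d) Z := hZ.mono_dim (Nat.le_add_left _ _)
    have h1 := (hR₁ p _ _ hP4 hP4ρ).1
    have h2 := (hR₂ p _ _ hZ' hS).1
    have h3 := (hR₁ p _ _ hZ hPρ).2
    beta_reduce at h1 h2 h3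
    rw [mul_one, (hD2 p (P 4) ρ hρ0).1, (hD2 p (P 4) ρ hρ0).2] at h1
    rw [mul_one] at h2
    rw [(hD2 p (P 1) ρ hρ0).1] at h3
    -- sizes
    have h4 : ((P 4).card : ℝ) ≤ 9 ^ d * N := by
      have h := (hPKC.2.2 p d P hP 4 1 (by norm_num) (by norm_num)).1
      norm_num at h
      exact h
    have hsub : P 4 + dil ρ (P 4) ⊆ P (4 * 6) + dil ρ (P (4 * 6)) := by
      refine Finset.add_subset_add (hP.mono (by norm_num)) ?_
      unfold dil
      exact Finset.image_subset_image (hP.mono (by norm_num))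
    have h5 : ((P 4 + dil ρ (P 4)).card : ℝ) ≤
        ((P (4 * 6) + dil ρ (P (4 * 6))).card : ℝ) := by
      exact_mod_cast Finset.card_le_card hsub
    set r : ℝ := ((P 4 + dil ρ (P 4)).card : ℝ) with hr
    set w : ℝ := ((Z 6 + (P (4 * 6) + dil ρ (P (4 * 6)))).card : ℝ) with hw
    have hr0 : 0 ≤ r := Nat.cast_nonneg _
    have hw0 : 0 ≤ w := Nat.cast_nonneg _
    have hm0 : 0 ≤ m := Nat.cast_nonneg _
    have h6 : r * L ≤ C₁ * (81 ^ d * N ^ 2) := by
      calc r * L ≤ ((P (4 * 6) + dil ρ (P (4 * 6))).card : ℝ) * (rr (P 4) ρ : ℝ) :=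
            mul_le_mul h5 hρL hL0.le (Nat.cast_nonneg _)
        _ ≤ C₁ * (((P 4).card : ℝ) * ((P 4).card : ℝ)) := h1
        _ ≤ C₁ * ((9 ^ d * N) * (9 ^ d * N)) :=
            mul_le_mul_of_nonneg_left (mul_le_mul h4 h4 (Nat.cast_nonneg _) (by positivity))
              (by linarith)
        _ = C₁ * (81 ^ d * N ^ 2) := by
            have : (81 : ℝ) ^ d = 9 ^ d * 9 ^ d := by
              rw [← mul_pow]; norm_num
            rw [this]; ring
    have h7 : w * t ≤ C₂ * (M * r) := by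
      calc w * t ≤ w * ((Z 1 ∩ (P 4 + dil ρ (P 4))).card : ℝ) :=
            mul_le_mul_of_nonneg_left hρt hw0
        _ ≤ C₂ * (M * r) := h2
    have hsub2 : Z 1 + dil ρ (P 1) ⊆ Z 6 + (P (4 * 6) + dil ρ (P (4 * 6))) := by
      refine Finset.add_subset_add (hZ.mono (by norm_num)) ?_
      intro y hy
      rw [ZST_mem_dil] at hy
      obtain ⟨x, hx, rfl⟩ := hy
      refine Finset.mem_add.2 ⟨0, hP.zero_mem (by norm_num), ρ * x, ?_, zero_add _⟩
      rw [ZST_mem_dil]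
      exact ⟨x, hP.mono (by norm_num) hx, rfl⟩
    have h8 : M * N ≤ C₁ * (w * m) := by
      refine h3.trans (mul_le_mul_of_nonneg_left ?_ (by linarith))
      refine mul_le_mul_of_nonneg_right ?_ hm0
      rw [hw]
      exact Nat.cast_le.2 (Finset.card_le_card hsub2)
    -- combine: t * L ≤ K * N * m
    have h9 : t * L * (M * N) ≤ K * N * m * (M * N) := by
      have hC₁0 : 0 ≤ C₁ := by linarith
      have hC₂0 : 0 ≤ C₂ := by linarith
      calc t * L * (M * N) ≤ t * L * (C₁ * (w * m)) :=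
            mul_le_mul_of_nonneg_left h8 (by positivity)
        _ = C₁ * L * m * (w * t) := by ring
        _ ≤ C₁ * L * m * (C₂ * (M * r)) := mul_le_mul_of_nonneg_left h7 (by positivity)
        _ = C₁ * m * C₂ * M * (r * L) := by ring
        _ ≤ C₁ * m * C₂ * M * (C₁ * (81 ^ d * N ^ 2)) :=
            mul_le_mul_of_nonneg_left h6 (by positivity)
        _ = K * N * m * (M * N) := by rw [hK]; ring
    have h10 : t * L ≤ K * N * m := le_of_mul_le_mul_right h9 (by positivity)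
    have h11 : K * N ≤ t := (mul_le_mul_of_nonneg_right hC hN0.le).trans ht
    have h12 : t * L / (K * N) ≤ m := by
      rw [div_le_iff₀ (by positivity)]
      linarith
    have h13 : 2 ≤ t * L / (K * N) := by
      rw [le_div_iff₀ (by positivity)]
      nlinarith [mul_pos hK0 hN0]
    have h14 : t * L / (2 * K * N) = t * L / (K * N) / 2 := by
      field_simp
    rw [h14]
    linarith
  -- the sum
  have h0F : ∀ ρ ∈ F, ρ ≠ 0 := fun ρ hρ => (Finset.mem_filter.1 hρ).2.1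
  have hen := ZST_energy (P 1) (Z 1) F h0F (hP.zero_mem (by norm_num)) (hZ.zero_mem (by norm_num))
  have hE' := hE p hpp₀ P Z hP hZ 1 1 (by norm_num) (by norm_num) hPZ
  have hpk : 0 < (p : ℝ) ^ κ := Real.rpow_pos_of_pos hp0 κ
  have hup : ∑ ρ ∈ F, (((Z 1 ∩ dil ρ (P 1)).card : ℝ) - 1) ^ 2 ≤ (p : ℝ) ^ κ * ((1 + H) * (N * M)) := by
    refine hen.trans (hE'.trans (mul_le_mul_of_nonneg_left ?_ hpk.le))
    have h15 : N ^ 2 * M ^ 2 / p ≤ H * (N * M) := by
      rw [div_le_iff₀ hp0]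
      have : N ^ 2 * M ^ 2 = (N * M) * (N * M) := by ring
      rw [this]
      calc (N * M) * (N * M) ≤ (N * M) * (H * p) :=
            mul_le_mul_of_nonneg_left hPZH (by positivity)
        _ = H * (N * M) * p := by ring
    change N * M + N ^ 2 * M ^ 2 / p ≤ (1 + H) * (N * M)
    linarith
  have hlo : (F.card : ℝ) * (t * L / (2 * K * N)) ^ 2 ≤
      ∑ ρ ∈ F, (((Z 1 ∩ dil ρ (P 1)).card : ℝ) - 1) ^ 2 := by
    rw [← nsmul_eq_mul]
    refine Finset.card_nsmul_le_sum F _ _ fun ρ hρ => ?_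
    exact pow_le_pow_left₀ (by positivity) (hlow ρ hρ) 2
  have hfin := hlo.trans hup
  have hden : 0 < (t * L / (2 * K * N)) ^ 2 := by positivity
  rw [← le_div_iff₀ hden] at hfin
  refine hfin.trans (le_of_eq ?_)
  field_simp
  ring

end Pool.Agent.helper85.PG
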