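import Pool.Agent.helper33.PG.Spec

/-!
# Project PG, row KEY: the two Pade integers bound `D ^ e`
-/

set_option autoImplicit false

namespace Pool.Agent.PG

open Polynomial Finset

theorem KEY_bound (hCON : CON_stmt) (hEVA : EVA_stmt) (N n k q r e b a' b' : ℕ) (hk : 0 < k)
    (hN : N = q * n + r) (hd : (k * 2 ^ n + 1) ^ e ∣ 2 ^ N + 1) (hbq : b ≤ q)
    (he : a' + b' + 1 = e) (ha : a' < q) (ha' : a' ≤ e - b) (hb' : b' ≤ b)
    (hW : W r q k n a' b' ≠ 0) :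
    (k * 2 ^ n + 1) ^ e ≤
      2 ^ e * (2 * q).choose e * (2 ^ r * (k * 2 ^ n + 1) ^ (e - b) + k ^ q * (k * 2 ^ n + 1) ^ b) := by
  have hX : (0 : ℤ) < (k : ℤ) * 2 ^ n := by positivity
  have h1 := hCON N n k q r e a' b' hN hd he ha
  have h2 : ((k : ℤ) * 2 ^ n + 1) ^ e ≤ |W r q k n a' b'| :=
    Int.le_of_dvd (abs_pos.2 hW) ((dvd_abs _ _).2 h1)
  obtain ⟨hA, hB⟩ := hEVA q a' b' (-((k : ℤ) * 2 ^ n)) ha (neg_ne_zero.2 hX.ne')
  rw [abs_neg, abs_of_pos hX] at hA hB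
  have h3 : |W r q k n a' b'| ≤ 2 ^ r * |(A q a' b').eval (-((k : ℤ) * 2 ^ n))| +
      (k : ℤ) ^ q * |(B q a' b').eval (-((k : ℤ) * 2 ^ n))| := by
    rw [W]
    refine (abs_sub _ _).trans (le_of_eq ?_)
    rw [abs_mul, abs_mul, abs_mul, abs_pow, abs_pow, abs_pow, abs_neg, abs_one, one_pow, one_mul,
      Nat.abs_ofNat, Nat.abs_cast]
  have hL : Lc q a' b' ≤ 2 ^ e * ((2 * q).choose e : ℤ) := by
    rw [Lc, he]
    have : (q + b').choose e ≤ (2 * q).choose e := Nat.choose_le_choose e (by omega)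
    have h' : ((q + b').choose e : ℤ) ≤ ((2 * q).choose e : ℤ) := by exact_mod_cast this
    exact mul_le_mul_of_nonneg_left h' (by positivity)
  have hD1 : (1 : ℤ) ≤ (k : ℤ) * 2 ^ n + 1 := by linarith
  have hpow : ∀ i j : ℕ, i ≤ j → ((k : ℤ) * 2 ^ n) ^ i ≤ ((k : ℤ) * 2 ^ n + 1) ^ j := fun i j hij =>
    (pow_le_pow_left₀ hX.le (by linarith) i).trans (pow_le_pow_right₀ hD1 hij)
  have hL0 : (0 : ℤ) ≤ 2 ^ e * ((2 * q).choose e : ℤ) := by positivity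
  have hA' : |(A q a' b').eval (-((k : ℤ) * 2 ^ n))| ≤
      2 ^ e * ((2 * q).choose e : ℤ) * ((k : ℤ) * 2 ^ n + 1) ^ (e - b) :=
    hA.trans (mul_le_mul hL (hpow _ _ ha') (by positivity) hL0)
  have hB' : |(B q a' b').eval (-((k : ℤ) * 2 ^ n))| ≤
      2 ^ e * ((2 * q).choose e : ℤ) * ((k : ℤ) * 2 ^ n + 1) ^ b :=
    hB.trans (mul_le_mul hL (hpow _ _ hb') (by positivity) hL0)
  have h4 : ((k : ℤ) * 2 ^ n + 1) ^ e ≤ 2 ^ e * ((2 * q).choose e : ℤ) *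
      (2 ^ r * ((k : ℤ) * 2 ^ n + 1) ^ (e - b) + (k : ℤ) ^ q * ((k : ℤ) * 2 ^ n + 1) ^ b) := by
    have e1 := mul_le_mul_of_nonneg_left hA' (show (0 : ℤ) ≤ 2 ^ r by positivity)
    have e2 := mul_le_mul_of_nonneg_left hB' (show (0 : ℤ) ≤ (k : ℤ) ^ q by positivity)
    calc ((k : ℤ) * 2 ^ n + 1) ^ e ≤ |W r q k n a' b'| := h2
      _ ≤ _ := h3
      _ ≤ _ := add_le_add e1 e2
      _ = _ := by ring
  exact_mod_cast h4

theorem KEY (hCON : CON_stmt) (hNON : NON_stmt) (hEVA : EVA_stmt) : KEY_stmt := by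
  intro N n k q r e b hk hN hd hb hbe heq
  by_cases h : W r q k n (e - 1 - b) b = 0
  · by_cases h' : W r q k n (e - 1 - b + 1) (b - 1) = 0
    · exact (hNON r q k n (e - 1 - b) b hb (by omega) h h').elim
    · exact KEY_bound hCON hEVA N n k q r e b _ _ hk hN hd (by omega) (by omega) (by omega)
        (by omega) (by omega) h'
  · exact KEY_bound hCON hEVA N n k q r e b _ _ hk hN hd (by omega) (by omega) (by omega)
      (by omega) le_rfl h

end Pool.Agent.PG
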